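import Pool.Agent.TH171.Bx.Main

/-!
# Boxicity of graphs with no `K_t` minor: `f(t) ≥ c t log t`

The problem file lists `Ω(t √(log t)) ≤ f(t) ≤ O(t² log t)`. We prove the lower bound
`f(t) ≥ c t log t` for all `t ≥ 2`, already for bipartite graphs.
-/

namespace Pool.Agent.Results.MP_be9601_co.LogFactorLowerBound

open TH171.Bx

lemma bot_minor {t : ℕ} (ht : 2 ≤ t) : ¬ HasCompleteMinor (⊥ : SimpleGraph (Fin 2)) t := by
  rintro ⟨B, _, _, h⟩
  obtain ⟨u, _, v, _, huv⟩ := h ⟨0, by omega⟩ ⟨1, by omega⟩ (by simp)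
  exact huv

lemma bot_box {d : ℕ} (h : HasBoxRep (⊥ : SimpleGraph (Fin 2)) d) : 1 ≤ d := by
  by_contra hd
  have hd0 : d = 0 := by omega
  subst hd0
  obtain ⟨lo, hi, hle, hadj⟩ := h
  have h1 := (hadj 0 1 (by decide)).mpr ⟨lo 0, ⟨le_rfl, hle 0⟩,
    ⟨(Subsingleton.elim _ _ : lo 1 = lo 0).le, (Subsingleton.elim _ _ : lo 0 = hi 1).le⟩⟩
  exact h1

lemma exists_level {t : ℕ} (ht : 4 * 2 ^ (20 * 16) ≤ t * 16) :
    ∃ L, 16 ≤ L ∧ 4 * 2 ^ (20 * L) ≤ t * L ∧ t * (L + 1) < 4 * 2 ^ (20 * (L + 1)) := by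
  have hex : ∃ j, t * (16 + j) < 4 * 2 ^ (20 * (16 + j)) := by
    refine ⟨t, ?_⟩
    have h1 : t < 2 ^ t := Nat.lt_two_pow_self
    have h2 : 16 + t < 2 ^ (16 + t) := Nat.lt_two_pow_self
    calc t * (16 + t) < 2 ^ t * 2 ^ (16 + t) := Nat.mul_lt_mul_of_lt_of_lt h1 h2
      _ = 2 ^ (t + (16 + t)) := (pow_add 2 t (16 + t)).symm
      _ ≤ 2 ^ (20 * (16 + t)) := Nat.pow_le_pow_right (by norm_num) (by omega)
      _ ≤ 4 * 2 ^ (20 * (16 + t)) := Nat.le_mul_of_pos_left _ (by norm_num)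
  classical
  have h1 := Nat.find_spec hex
  have h0 : Nat.find hex ≠ 0 := by
    intro h
    rw [h] at h1
    exact absurd h1 (not_lt.mpr ht)
  obtain ⟨j, hj⟩ := Nat.exists_eq_succ_of_ne_zero h0
  have h2 := Nat.find_min hex (m := j) (by omega)
  rw [hj] at h1
  exact ⟨16 + j, by omega, not_lt.mp h2, h1⟩

lemma large_case {t L d : ℕ} (ht0 : (0 : ℝ) < t)
    (hL2 : t * (L + 1) < 4 * 2 ^ (20 * (L + 1))) (hL : 16 ≤ L) (h1 : 2 ^ (20 * L - 4) ≤ d) :
    (t : ℝ) * Real.log t ≤ 2 ^ 31 * d := by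
  have h2 : 4 * 2 ^ (20 * (L + 1)) = 2 ^ 26 * 2 ^ (20 * L - 4) := by
    have : (4 : ℕ) = 2 ^ 2 := by norm_num
    rw [this, ← pow_add, ← pow_add]
    congr 1
    omega
  have h3 : t * (L + 1) ≤ 2 ^ 26 * d := by
    rw [h2] at hL2
    exact hL2.le.trans (Nat.mul_le_mul_left _ h1)
  have h3' : (t : ℝ) * (L + 1) ≤ 2 ^ 26 * d := by exact_mod_cast h3
  have h4 : t ≤ 2 ^ (22 * (L + 1)) := by
    have h5 : t ≤ t * (L + 1) := Nat.le_mul_of_pos_right _ (by omega)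
    have h6 : 4 * 2 ^ (20 * (L + 1)) ≤ 2 ^ (22 * (L + 1)) := by
      have : (4 : ℕ) = 2 ^ 2 := by norm_num
      rw [this, ← pow_add]
      exact Nat.pow_le_pow_right (by norm_num) (by omega)
    exact h5.trans (hL2.le.trans h6)
  have h5 : Real.log t ≤ 22 * (L + 1) := by
    have h6 : (t : ℝ) ≤ (2 : ℝ) ^ (22 * (L + 1)) := by exact_mod_cast h4
    have h7 := Real.log_le_log ht0 h6
    rw [Real.log_pow] at h7
    have h8 : Real.log 2 ≤ 1 := by have := Real.log_two_lt_d9; linarith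
    have h9 : (0 : ℝ) ≤ ((22 * (L + 1) : ℕ) : ℝ) := Nat.cast_nonneg _
    have h10 := mul_le_mul_of_nonneg_left h8 h9
    rw [mul_one] at h10
    refine h7.trans (h10.trans (le_of_eq ?_))
    rw [Nat.cast_mul, Nat.cast_add, Nat.cast_one, Nat.cast_ofNat]
  have hd0 : (0 : ℝ) ≤ d := Nat.cast_nonneg _
  calc (t : ℝ) * Real.log t ≤ t * (22 * (L + 1)) := mul_le_mul_of_nonneg_left h5 ht0.le
    _ = 22 * (t * (L + 1)) := by ring
    _ ≤ 22 * (2 ^ 26 * d) := mul_le_mul_of_nonneg_left h3' (by norm_num)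
    _ = (22 * 2 ^ 26) * d := (mul_assoc _ _ _).symm
    _ ≤ 2 ^ 31 * d := mul_le_mul_of_nonneg_right (by norm_num) hd0

lemma small_case {t : ℕ} (ht : 2 ≤ t) (h2 : t ≤ 2 ^ 318) :
    (t : ℝ) * Real.log t ≤ 2 ^ 318 * 318 := by
  have ht0 : (0 : ℝ) < t := by exact_mod_cast (by omega : 0 < t)
  have h2' : (t : ℝ) ≤ 2 ^ 318 := by exact_mod_cast h2
  have h3 : Real.log t ≤ 318 := by
    have h4 := Real.log_le_log ht0 h2'
    rw [Real.log_pow] at h4
    have h8 : Real.log 2 ≤ 1 := by have := Real.log_two_lt_d9; linarith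
    push_cast at h4
    linarith
  have h5 : 0 ≤ Real.log t := Real.log_nonneg (by exact_mod_cast (by omega : 1 ≤ t))
  exact mul_le_mul h2' h3 h5 (by positivity)

lemma exists_const : ∃ c : ℝ, 0 < c ∧ c * 2 ^ 31 ≤ 1 ∧ c * (2 ^ 318 * 318) ≤ 1 := by
  refine ⟨1 / (2 ^ 318 * 318), by positivity, ?_, ?_⟩
  · rw [div_mul_eq_mul_div, one_mul, div_le_one (by positivity)]
    have h1 : (2 : ℝ) ^ 31 ≤ 2 ^ 318 := pow_le_pow_right₀ (by norm_num) (by norm_num)
    exact h1.trans (le_mul_of_one_le_right (by positivity) (by norm_num))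
  · rw [div_mul_cancel₀]
    positivity

/-- There is an absolute constant `c > 0` such that for every `t ≥ 2` there is a finite bipartite
graph without a `K_t` minor all of whose box representations have dimension at least
`c t log t`. -/
theorem result : ∃ c : ℝ, 0 < c ∧ ∀ t : ℕ, 2 ≤ t →
    ∃ (V : Type) (_ : Fintype V) (G : SimpleGraph V), G.Colorable 2 ∧
      ¬ HasCompleteMinor G t ∧ ∀ d : ℕ, HasBoxRep G d → c * t * Real.log t ≤ d := by
  obtain ⟨c, hc0, hc1, hc2⟩ := exists_const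
  refine ⟨c, hc0, ?_⟩
  intro t ht
  have ht0 : (0 : ℝ) < t := by exact_mod_cast (by omega : 0 < t)
  by_cases hbig : 4 * 2 ^ (20 * 16) ≤ t * 16
  · obtain ⟨L, hL, hL1, hL2⟩ := exists_level hbig
    obtain ⟨G, hG1, hG2, hG3⟩ := exists_graph L hL
    refine ⟨_, inferInstance, G, hG1, hG2 t hL1, ?_⟩
    intro d hd
    have h6 := large_case ht0 hL2 hL (hG3 d hd)
    have hd0 : (0 : ℝ) ≤ d := Nat.cast_nonneg _
    calc c * t * Real.log t = c * (t * Real.log t) := mul_assoc _ _ _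
      _ ≤ c * (2 ^ 31 * d) := mul_le_mul_of_nonneg_left h6 hc0.le
      _ = (c * 2 ^ 31) * d := (mul_assoc _ _ _).symm
      _ ≤ 1 * d := mul_le_mul_of_nonneg_right hc1 hd0
      _ = d := one_mul _
  · refine ⟨Fin 2, inferInstance, ⊥, ?_, bot_minor ht, ?_⟩
    · exact ⟨SimpleGraph.Coloring.mk (fun _ => 0) (fun h => absurd h (by simp))⟩
    · intro d hd
      have h1 := bot_box hd
      have h1' : (1 : ℝ) ≤ d := by exact_mod_cast h1
      have h2 : t ≤ 2 ^ 318 := by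
        push Not at hbig
        have h3 : (4 : ℕ) * 2 ^ (20 * 16) = 2 ^ 318 * 16 := by
          have h4 : (4 : ℕ) = 2 ^ 2 := by norm_num
          have h5 : (16 : ℕ) = 2 ^ 4 := by norm_num
          rw [h4]
          calc (2 : ℕ) ^ 2 * 2 ^ (20 * 16) = 2 ^ (2 + 20 * 16) := (pow_add 2 2 (20 * 16)).symm
            _ = 2 ^ (318 + 4) := by congr 1
            _ = 2 ^ 318 * 2 ^ 4 := pow_add 2 318 4
            _ = 2 ^ 318 * 16 := by rw [← h5]
        rw [h3] at hbig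
        exact (Nat.lt_of_mul_lt_mul_right hbig).le
      calc c * t * Real.log t = c * (t * Real.log t) := mul_assoc _ _ _
        _ ≤ c * (2 ^ 318 * 318) := mul_le_mul_of_nonneg_left (small_case ht h2) hc0.le
        _ ≤ 1 := hc2
        _ ≤ d := h1'

end Pool.Agent.Results.MP_be9601_co.LogFactorLowerBound
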